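import Pool.Agent.helper24.NR.Spec

set_option autoImplicit false

namespace Pool.Agent.NR

open Finset

theorem ARI : ARI_stmt := by
  intro N e a b s t α β P h1 h2 h3 h4 h5 h6
  by_contra hc
  have h7 : α + β ≤ 7 := by omega
  have h8 : 2 * (α + β) ≤ α * β := by omega
  have hα : α ≤ 7 := by omega
  have hβ : β ≤ 7 := by omega
  clear h1 h2 h3 h4 h5 hc
  interval_cases α <;> interval_cases β <;> omega

end Pool.Agent.NR
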